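import Pool.Agent.H83.DS.Frob
import Pool.Graph.R_pool_sql_team_seeded_3dad9d7b.NH64.DS.Assembly
import Pool.Graph.R_pool_sql_team_seeded_3dad9d7b.NH64.DS.Second

set_option autoImplicit false

open MeasureTheory Metric Set

namespace Pool.Agent.Results.MP_e5d0a4_an.BelowTwoOverN

open Pool.Agent.NH64.DS Pool.Agent.NH64.DS.Mn

/-- the sum map -/
noncomputable def sm {k : ℕ} (t : Fin k → ℝ) (θ : ℝ) (p : ℝ × (Fin k → ℝ)) : ℝ :=
  p.1 + ∑ i, t i * p.2 i + θ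

lemma sm_cont {k : ℕ} (t : Fin k → ℝ) (θ : ℝ) : Continuous (sm t θ) := by
  unfold sm
  fun_prop

lemma sumLaw_eq (μ : Measure ℝ) {k : ℕ} (t : Fin k → ℝ) (θ : ℝ) :
    sumLaw μ t θ = Measure.map (sm t θ) (μ.prod (Measure.pi fun _ : Fin k => μ)) := rfl

lemma sumLaw_prob (μ : Measure ℝ) [IsProbabilityMeasure μ] {k : ℕ} (t : Fin k → ℝ) (θ : ℝ) :
    IsProbabilityMeasure (sumLaw μ t θ) := by
  rw [sumLaw_eq]
  exact Measure.isProbabilityMeasure_map (sm_cont t θ).measurable.aemeasurable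

/-- the product measure lives on the product set -/
lemma prod_null (μ : Measure ℝ) [IsProbabilityMeasure μ] {K : Set ℝ} (hK : μ Kᶜ = 0) (k : ℕ) :
    (μ.prod (Measure.pi fun _ : Fin k => μ)) (K ×ˢ (univ.pi fun _ : Fin k => K))ᶜ = 0 := by
  have h1 : ∀ᵐ x ∂μ, x ∈ K := by
    rw [ae_iff]
    exact hK
  have h2 : ∀ᵐ y ∂(Measure.pi fun _ : Fin k => μ), y ∈ (univ.pi fun _ : Fin k => K) := by
    have h3 : ∀ i : Fin k, ∀ᵐ y ∂(Measure.pi fun _ : Fin k => μ), y i ∈ K := by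
      intro i
      exact (Measure.tendsto_eval_ae_ae (μ := fun _ : Fin k => μ) (i := i)).eventually h1
    filter_upwards [ae_all_iff.2 h3] with y hy
    intro i _
    exact hy i
  have h4 : ∀ᵐ p ∂(μ.prod (Measure.pi fun _ : Fin k => μ)),
      p ∈ K ×ˢ (univ.pi fun _ : Fin k => K) := by
    have h5 := Measure.quasiMeasurePreserving_fst (μ := μ)
      (ν := Measure.pi fun _ : Fin k => μ) |>.ae h1
    have h6 := Measure.quasiMeasurePreserving_snd (μ := μ)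
      (ν := Measure.pi fun _ : Fin k => μ) |>.ae h2
    filter_upwards [h5, h6] with p hp1 hp2
    exact ⟨hp1, hp2⟩
  exact ae_iff.1 h4

lemma sumLaw_null (μ : Measure ℝ) [IsProbabilityMeasure μ] {K : Set ℝ} (hKc : IsCompact K)
    (hK : μ Kᶜ = 0) {k : ℕ} (t : Fin k → ℝ) (θ : ℝ) :
    IsCompact (sm t θ '' (K ×ˢ (univ.pi fun _ : Fin k => K))) ∧
      sumLaw μ t θ (sm t θ '' (K ×ˢ (univ.pi fun _ : Fin k => K)))ᶜ = 0 := by
  have hc : IsCompact (sm t θ '' (K ×ˢ (univ.pi fun _ : Fin k => K))) :=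
    (hKc.prod (isCompact_univ_pi fun _ => hKc)).image (sm_cont t θ)
  refine ⟨hc, ?_⟩
  rw [sumLaw_eq, Measure.map_apply (sm_cont t θ).measurable hc.isClosed.measurableSet.compl]
  refine measure_mono_null ?_ (prod_null μ hK k)
  intro p hp hpK
  exact hp ⟨p, hpK, rfl⟩

/-- positivity of all dyadic intervals around a point puts it into a closed carrier -/
lemma mem_of_dyadic (ν : Measure ℝ) {S : Set ℝ} (hS : IsClosed S) (hν : ν Sᶜ = 0) (m : ℕ) (x : ℝ)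
    (h : ∀ l : ℕ, 0 < ν.real (dy (m + l) ⌊x * 2 ^ (m + l)⌋)) : x ∈ S := by
  by_contra hx
  obtain ⟨ε, hε, hb⟩ := Metric.isOpen_iff.1 hS.isOpen_compl x hx
  obtain ⟨l, hl⟩ := exists_pow_lt_of_lt_one hε (show ((2 : ℝ)⁻¹) < 1 by norm_num)
  have h1 : dy (m + l) ⌊x * 2 ^ (m + l)⌋ ⊆ Sᶜ := by
    refine Subset.trans ?_ hb
    intro y hy
    unfold dy at hy
    have hp : (0 : ℝ) < 2 ^ (m + l) := by positivity
    have e1 : ((2 : ℝ)⁻¹) ^ (m + l) * 2 ^ (m + l) = 1 := by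
      rw [← mul_pow]
      norm_num
    have hf1 := Int.floor_le (x * 2 ^ (m + l))
    have hf2 := Int.lt_floor_add_one (x * 2 ^ (m + l))
    set i : ℤ := ⌊x * 2 ^ (m + l)⌋ with hi
    have hinv : (0 : ℝ) < (2 : ℝ)⁻¹ ^ (m + l) := by positivity
    have hx1 : (i : ℝ) * (2 : ℝ)⁻¹ ^ (m + l) ≤ x := by
      calc (i : ℝ) * (2 : ℝ)⁻¹ ^ (m + l) ≤ (x * 2 ^ (m + l)) * (2 : ℝ)⁻¹ ^ (m + l) :=
            mul_le_mul_of_nonneg_right hf1 hinv.le
        _ = x * ((2 : ℝ)⁻¹ ^ (m + l) * 2 ^ (m + l)) := by ring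
        _ = x := by rw [e1, mul_one]
    have hx2 : x < ((i : ℝ) + 1) * (2 : ℝ)⁻¹ ^ (m + l) := by
      calc x = x * ((2 : ℝ)⁻¹ ^ (m + l) * 2 ^ (m + l)) := by rw [e1, mul_one]
        _ = (x * 2 ^ (m + l)) * (2 : ℝ)⁻¹ ^ (m + l) := by ring
        _ < ((i : ℝ) + 1) * (2 : ℝ)⁻¹ ^ (m + l) := mul_lt_mul_of_pos_right hf2 hinv
    have hle : (2 : ℝ)⁻¹ ^ (m + l) ≤ (2 : ℝ)⁻¹ ^ l :=
      pow_le_pow_of_le_one (by norm_num) (by norm_num) (by omega)
    rw [mem_ball, Real.dist_eq, abs_lt]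
    have e2 : ((i : ℝ) + 1) * (2 : ℝ)⁻¹ ^ (m + l) =
        (i : ℝ) * (2 : ℝ)⁻¹ ^ (m + l) + (2 : ℝ)⁻¹ ^ (m + l) := by ring
    have h3 := hy.1
    have h4 := hy.2
    rw [e2] at h4 hx2
    constructor <;> linarith
  have h2 := h l
  rw [measureReal_def, measure_mono_null h1 hν] at h2
  simp at h2

theorem core (k : ℕ) (hk : 1 ≤ k) (A : Set ℝ) (hA : MeasurableSet A)
    (hd : ENNReal.ofReal (2 / (k + 2 : ℝ) - 1 / (2000 * (k + 2 : ℝ) ^ 2)) < dimH A) :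
    ∃ t : Fin (k + 2) → ℝ, t 0 = 1 ∧ ∃ x y : ℝ, x < y ∧
      Ioo x y ⊆ {z : ℝ | ∃ a : Fin (k + 2) → ℝ, (∀ i, a i ∈ A) ∧ z = ∑ i, t i * a i} := by
  obtain ⟨n, hn⟩ : ∃ n : ℝ, n = (k : ℝ) + 2 := ⟨_, rfl⟩
  have hk1 : (1 : ℝ) ≤ k := by exact_mod_cast hk
  have hn3 : 3 ≤ n := by linarith
  have hn0 : 0 < n := by linarith
  rw [← hn] at hd
  obtain ⟨s, hs⟩ : ∃ s : ℝ, s = 2 / n - 1 / (2000 * n ^ 2) := ⟨_, rfl⟩
  rw [← hs] at hd
  -- numerical facts
  have hns : n * s = 2 - 1 / (2000 * n) := by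
    rw [hs]
    field_simp
  have hinv : 0 < 1 / (2000 * n) := by positivity
  have hinv2 : 1 / (2000 * n) ≤ 1 / 6000 := by
    apply one_div_le_one_div_of_le (by norm_num)
    linarith
  have hs0 : 0 < s := by
    by_contra hcon
    push Not at hcon
    have : n * s ≤ 0 := mul_nonpos_of_nonneg_of_nonpos hn0.le hcon
    linarith
  have hs23 : s ≤ 2 / 3 := by
    by_contra hcon
    push Not at hcon
    have : 3 * (2 / 3 : ℝ) < n * s := by
      have h1 : 3 * (2 / 3 : ℝ) < 3 * s := by linarith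
      have h2 : 3 * s ≤ n * s := mul_le_mul_of_nonneg_right hn3 hs0.le
      linarith
    linarith
  have hs1 : s < 1 := by linarith
  obtain ⟨L, K, μ, C, hL, hKc, hK1, hKA, hμ, hμK, hC, hfr⟩ :=
    Pool.Agent.H83.DS.frob A hA s hs0 hd
  have hsupp : μ (Icc (-1) 1)ᶜ = 0 := measure_mono_null (compl_subset_compl.2 hK1) hμK
  obtain ⟨R1, hR1, hstar⟩ := star μ hs0 hs1 hC hfr
  set c := cst s with hc
  have hkn : (k : ℝ) + 1 = n - 1 := by linarith
  obtain ⟨g, hg⟩ : ∃ g : ℝ, g = (k + 1 : ℝ) * s - 1 := ⟨_, rfl⟩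
  have hg' : g = n * s - s - 1 := by rw [hg, hkn]; ring
  have hg0 : 1 / 4 < g := by
    rw [hg', hns]
    linarith
  -- the gain
  have hcl : 1 / (2000 * n) < c := by
    have h1 : c = (1 - s) ^ 2 * s / 400 := rfl
    have h2 : (1 / 3 : ℝ) ^ 2 ≤ (1 - s) ^ 2 := by
      apply pow_le_pow_left₀ (by norm_num)
      linarith
    have h3 : (1 / 3 : ℝ) ^ 2 * s / 400 ≤ c := by
      rw [h1]
      have := mul_le_mul_of_nonneg_right h2 hs0.le
      linarith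
    refine lt_of_lt_of_le ?_ h3
    rw [div_lt_iff₀ (by positivity)]
    have h4 : (1 / 3 : ℝ) ^ 2 * s / 400 * (2000 * n) = (5 / 9) * (n * s) := by ring
    rw [h4, hns]
    linarith
  have hcu : c ≤ 1 / 400 := by
    have h1 : c = (1 - s) ^ 2 * s / 400 := rfl
    have h2 : (1 - s) ^ 2 ≤ 1 := by
      apply pow_le_one₀ <;> linarith
    have h3 : (1 - s) ^ 2 * s ≤ 1 := by nlinarith
    rw [h1]
    linarith
  obtain ⟨Δ, hΔ⟩ : ∃ Δ : ℝ, Δ = c - 1 / (2000 * n) := ⟨_, rfl⟩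
  have hΔ0 : 0 < Δ := by rw [hΔ]; linarith
  have hΔ1 : Δ ≤ 1 / 400 := by rw [hΔ]; linarith
  have hΔ2 : s + c + g - 1 = Δ := by rw [hΔ, hg', hns]; ring
  obtain ⟨t, θ, C', ht, hθ, hej⟩ := second_moment μ hsupp s C hs0 hs1 hC hfr k hk
    (by linarith) (by rw [hkn]; nlinarith) (g - Δ / 10) (by rw [hg]; linarith)
  have hνp := sumLaw_prob μ t θ
  obtain ⟨hSc, hSν⟩ := sumLaw_null μ hKc hμK t θ
  set S := sm t θ '' (K ×ˢ (univ.pi fun _ : Fin k => K)) with hS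
  have hsuppν : sumLaw μ t θ (Icc (-((2 * k + 2 : ℕ) : ℝ)) ((2 * k + 2 : ℕ) : ℝ))ᶜ = 0 := by
    refine measure_mono_null (compl_subset_compl.2 ?_) hSν
    rintro _ ⟨p, hp, rfl⟩
    have hp1 : |p.1| ≤ 1 := abs_le.2 (hK1 hp.1)
    have hp2 : ∀ i, |p.2 i| ≤ 1 := fun i => abs_le.2 (hK1 (hp.2 i (mem_univ i)))
    have hsum : |∑ i, t i * p.2 i| ≤ 2 * k := by
      refine (Finset.abs_sum_le_sum_abs _ _).trans ?_
      have : ∀ i ∈ (Finset.univ : Finset (Fin k)), |t i * p.2 i| ≤ 2 := by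
        intro i _
        rw [abs_mul, abs_of_nonneg (by linarith [(ht i).1] : 0 ≤ t i)]
        have := (ht i).2
        have h0 := (ht i).1
        have h1 := hp2 i
        have h2 := abs_nonneg (p.2 i)
        nlinarith
      refine (Finset.sum_le_card_nsmul _ _ _ this).trans ?_
      rw [Finset.card_univ, Fintype.card_fin, nsmul_eq_mul]
      linarith
    have hθ1 : |θ| ≤ 1 := abs_le.2 ⟨by linarith [hθ.1], hθ.2⟩
    rw [mem_Icc, ← abs_le]
    unfold sm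
    push_cast
    calc |p.1 + ∑ i, t i * p.2 i + θ| ≤ |p.1 + ∑ i, t i * p.2 i| + |θ| := abs_add_le _ _
      _ ≤ |p.1| + |∑ i, t i * p.2 i| + |θ| := by
          have := abs_add_le p.1 (∑ i, t i * p.2 i)
          linarith
      _ ≤ 2 * k + 2 := by linarith
  obtain ⟨m, u, z0, r, hr, hz⟩ := assembly μ hK1 hμK (s := s) (c := c) (R1 := R1) hstar
    (sumLaw μ t θ) (2 * k + 2) hsuppν (γ := g - 2 * (Δ / 10)) (η := Δ / 10) (C' := C')
    (by positivity) (by linarith)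
    (by
      intro j
      have e : g - 2 * (Δ / 10) + Δ / 10 = g - Δ / 10 := by ring
      rw [e]
      exact hej j)
    (by
      have : s + c + (g - 2 * (Δ / 10)) - 1 - 4 * (Δ / 10) = (s + c + g - 1) - 6 * (Δ / 10) := by
        ring
      rw [this, hΔ2]
      linarith)
  refine ⟨Fin.cons 1 (Fin.snoc (α := fun _ => ℝ) t u), rfl, L * (z0 - θ - r), L * (z0 - θ + r),
    ?_, ?_⟩
  · exact mul_lt_mul_of_pos_left (by linarith) hL
  · intro z hzz
    have hz1 : |(z / L + θ) - z0| < r := by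
      rw [abs_lt]
      have h1 := hzz.1
      have h2 := hzz.2
      rw [← lt_div_iff₀' hL] at h1
      rw [← div_lt_iff₀' hL] at h2
      constructor <;> linarith
    obtain ⟨a, haK, ha⟩ := hz _ hz1
    have hmem := mem_of_dyadic (sumLaw μ t θ) hSc.isClosed hSν m _ ha
    obtain ⟨p, hp, hpe⟩ := hmem
    unfold sm at hpe
    refine ⟨Fin.cons (L * p.1) (Fin.snoc (α := fun _ => ℝ) (fun i => L * p.2 i) (L * a)), ?_, ?_⟩
    · intro i
      refine Fin.cases ?_ (fun j => ?_) i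
      · rw [Fin.cons_zero]
        exact hKA _ hp.1
      · rw [Fin.cons_succ]
        refine Fin.lastCases ?_ (fun j' => ?_) j
        · rw [Fin.snoc_last]
          exact hKA _ haK
        · rw [Fin.snoc_castSucc]
          exact hKA _ (hp.2 j' (mem_univ _))
    · rw [Fin.sum_univ_succ, Fin.sum_univ_castSucc]
      simp only [Fin.cons_zero, Fin.cons_succ, Fin.snoc_castSucc, Fin.snoc_last]
      have hzL : z = L * (z / L) := by field_simp
      have h5 : z / L = p.1 + ∑ i, t i * p.2 i + u * a := by linarith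
      rw [hzL, h5]
      have h6 : ∑ i, t i * (L * p.2 i) = L * ∑ i, t i * p.2 i := by
        rw [Finset.mul_sum]
        exact Finset.sum_congr rfl fun i _ => by ring
      rw [h6]
      ring

/-- For every `n ≥ 3`, every Borel set `A` of reals of Hausdorff dimension larger than
`2 / n - 1 / (2000 n ^ 2)` has a dilated sumset `A + t_2 A + ⋯ + t_n A` containing an open
interval. -/
theorem result : ∀ n : ℕ, 3 ≤ n → ∀ A : Set ℝ, MeasurableSet A →
    ENNReal.ofReal (2 / (n : ℝ) - 1 / (2000 * (n : ℝ) ^ 2)) < dimH A →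
    ∃ t : Fin n → ℝ, (∀ i : Fin n, (i : ℕ) = 0 → t i = 1) ∧ ∃ x y : ℝ, x < y ∧
      Ioo x y ⊆ {z : ℝ | ∃ a : Fin n → ℝ, (∀ i, a i ∈ A) ∧ z = ∑ i, t i * a i} := by
  intro n hn A hA hd
  obtain ⟨k, rfl⟩ : ∃ k, n = k + 2 := ⟨n - 2, by omega⟩
  have hd' : ENNReal.ofReal (2 / (k + 2 : ℝ) - 1 / (2000 * (k + 2 : ℝ) ^ 2)) < dimH A := by
    push_cast at hd
    exact hd
  obtain ⟨t, ht, h⟩ := core k (by omega) A hA hd'
  refine ⟨t, ?_, h⟩
  intro i hi
  have : i = 0 := Fin.ext hi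
  rw [this, ht]

end Pool.Agent.Results.MP_e5d0a4_an.BelowTwoOverN
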